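import Pool.Agent.Lib.MP_fd2900_lc.Z.Fin

/-!
Disproof of Q1. There are a computable relational signature `ar` and a computable structure `Univ D` on `ω` such that

* the complete theory `T` of `Univ D` is strongly minimal,
* `Univ D` embeds elementarily into every model of `T`, so it is the prime model of `T`, and it is computable,
* `T` has a countable model that is not isomorphic to the prime model,
* no model `N` of `T` that is not isomorphic to the prime model has a copy computable in `0''`: if `A` is
  computably enumerable and `B` is computably enumerable relative to `A` (the second jump `0''` is such a set `B`),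
  then `N` is not isomorphic to any structure whose universe `U ⊆ ω` and whose atomic diagram `D'` are computable
  relative to `B`.
-/

open FirstOrder FirstOrder.Language Pool.Agent.MP_fd2900_lc

theorem Pool.Agent.Results.MP_fd2900_lc.Disproof.result :
    ∃ (ar : ℕ → ℕ) (D : ℕ × List ℕ → Prop), Computable ar ∧ ComputablePred D ∧
      StronglyMinimal ((Lg ar).completeTheory (Univ D)) ∧
      (∀ (M : Type) [(Lg ar).Structure M] [Nonempty M] [M ⊨ (Lg ar).completeTheory (Univ D)],
        Nonempty (Univ D ↪ₑ[Lg ar] M)) ∧
      (∃ (N : Type) (_ : (Lg ar).Structure N) (_ : Nonempty N), Countable N ∧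
        N ⊨ (Lg ar).completeTheory (Univ D) ∧ IsEmpty (Univ D ≃[Lg ar] N)) ∧
      ∀ (N : Type) [(Lg ar).Structure N] [Nonempty N] [N ⊨ (Lg ar).completeTheory (Univ D)],
        IsEmpty (Univ D ≃[Lg ar] N) → ∀ A B : ℕ → Prop, CeIn (fun _ => False) A → CeIn A B →
          ∀ (U : ℕ → Prop) (D' : ℕ × List ℕ → Prop), CompIn B U → CompIn B D' →
            IsEmpty (UnivS U D' ≃[Lg ar] N) :=
  FdZ.disproof
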