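import Mathlib
import Pool.Agent.Lib.MP_fd2900_lc.H55.Main3

/-!
Strongly minimal theories with a computable model: the existential closure (inside a countable
model `M`) of a computable elementary submodel, a set independent over it and a finite set is
existentially closed in `M` and has a copy with `Delta^0_3` atomic diagram.
-/

open FirstOrder FirstOrder.Language in
theorem Pool.Agent.Results.MP_fd2900_lc.ExClosure.result
    {sig : ℕ → Option ℕ} {T : (FD55.Lg sig).Theory} (hT : FD55.StronglyMinimal T)
    (A : (FD55.Lg sig).Structure ℕ)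
    (hA : ComputablePred fun p : ℕ × List ℕ => FD55.Holds sig A p.1 p.2)
    (M : Type) [(FD55.Lg sig).Structure M] [T.Model M] [Countable M]
    (f : @FirstOrder.Language.ElementaryEmbedding (FD55.Lg sig) ℕ M A _)
    (I : Set M) (hI : ∀ b ∈ I, ¬ FD55.Alg sig (Set.range f ∪ (I \ {b})) b)
    (F : Set M) (hF : F.Finite) :
    ∃ N : (FD55.Lg sig).Substructure M,
      (N : Set M) = FD55.ecl sig (Set.range f ∪ I ∪ F) ∧
      FD55.ExistentiallyClosedIn N ∧ FD55.HasDelta3Copy (sig := sig) N :=
  FD55.main3 hT A hA ⟨M, inferInstance, ⟨f (0 : ℕ)⟩⟩ (hM := inferInstance) inferInstance f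
    I hI F hF
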