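import Pool.Agent.Lib.MP_fd2900_lc.Core

/-!
`T` is a strongly minimal theory in a computable relational language, `Univ D` is a computable model of `T`,
`M` is an elementary extension of it and `b` is a finite or infinite sequence of elements of `M` independent over
`Univ D`. The set `N` of all elements of `M` that are algebraic over `Univ D` and `b` by an exists-forall formula is
existentially closed in `M`, and it has a copy with universe `ω` whose atomic diagram is `Δ⁰₃`, that is, computable
in `0''`.
-/

open FirstOrder FirstOrder.Language Pool.Agent.MP_fd2900_lc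

theorem Pool.Agent.Results.MP_fd2900_lc.ExistsForall.result
    {ar : ℕ → ℕ} (har : Computable ar) {D : ℕ × List ℕ → Prop} (hD : ComputablePred D)
    (hsm : StronglyMinimal ((Lg ar).completeTheory (Univ D)))
    (M : Type) [(Lg ar).Structure M] (f : Univ D ↪ₑ[Lg ar] M) (b : ℕ → M) (d : ℕ∞)
    (hb : ∀ i : ℕ, (i : ℕ∞) < d → ¬ Alg (L := Lg ar) (cst f) (fun k : Fin i => b k) (b i)) :
    ExClosed (L := Lg ar) (clEA (L := Lg ar) (cst f) b d) ∧
    ∃ D' : ℕ × List ℕ → Prop, Delta3 D' ∧
      Nonempty (Univ D' ≃[Lg ar] (subOf (clEA (L := Lg ar) (cst f) b d) : (Lg ar).Substructure M)) :=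
  main3 har hD hsm M f b d hb
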